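import Pool.Agent.Helper3.AK.Goals3
import Pool.Agent.Helper3.AK.Goals4

/-! Project AK, packet ALLK: the induction on the number of generators. -/

namespace Pool.Agent.Helper3.AK

theorem allk (h1 : S_BASE) (h2 : S_STEP) : S_ALLK := by
  intro k hk
  induction k, hk using Nat.le_induction with
  | base =>
    intro α hα
    refine h1 α ?_
    norm_num at hα
    linarith
  | succ k hk ih =>
    intro α hα
    obtain ⟨m, rfl⟩ : ∃ m, k = m + 2 := ⟨k - 2, by omega⟩
    have e1 : m + 2 + 1 - 2 = m + 1 := by omega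
    have e2 : m + 2 - 2 = m := by omega
    rw [e1] at hα
    rw [e2] at ih
    have hp : (1 : ℝ) ≤ 2 ^ m := one_le_pow₀ (by norm_num)
    have hA : (1 : ℝ) / 3 ≤ 1 - 2 / 3 / 2 ^ m := by
      have : (2 : ℝ) / 3 / 2 ^ m ≤ 2 / 3 := div_le_self (by norm_num) hp
      linarith
    have hA1 : (1 : ℝ) - 2 / 3 / 2 ^ m < 1 := by
      have : (0 : ℝ) < 2 / 3 / 2 ^ m := by positivity
      linarith
    have e3 : (2 : ℝ) / 3 / 2 ^ (m + 1) = (2 / 3 / 2 ^ m) / 2 := by
      rw [pow_succ]; field_simp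
    rw [e3] at hα
    have hlt : max (2 * α - 1) 0 < 1 - 2 / 3 / 2 ^ m := max_lt (by linarith) (by linarith)
    obtain ⟨α₀, ha, hb⟩ := exists_between hlt
    have h3 : 2 * α - 1 < α₀ := lt_of_le_of_lt (le_max_left _ _) ha
    have h4 : 0 < α₀ := lt_of_le_of_lt (le_max_right _ _) ha
    obtain ⟨ε, hε, hw⟩ := ih α₀ hb
    exact h2 (m + 2) α₀ ε (by omega) h4 (hb.trans hA1) hε hw α (by linarith)

end Pool.Agent.Helper3.AK
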