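import Pool.Agent.Helper6.AK.Inv

/-! Project AK, packet TRJ: the exchange of two trajectories. -/

set_option linter.unusedVariables false

namespace Pool.Agent.Helper7.AKTRJ

open Equiv Pool.Agent.Helper6.AK

variable {n K r : ℕ}

/-- the general step: same position and `x' = x` at the tail -/
theorem step (x x' : Fin K → Perm (Fin n)) (u : ℕ → Perm (Fin n)) (j : ℕ → Fin K) (s : ℕ → Bool)
    (t : ℕ) (v w : Fin n) (h : zz x' u j s t v = zz x u j s t w)
    (hok : x' (j t) (tl x u j s t w) = x (j t) (tl x u j s t w)) :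
    zz x' u j s (t + 1) v = zz x u j s (t + 1) w ∧ tl x' u j s t v = tl x u j s t w := by
  cases hs : s t with
  | true =>
    have e1 : tl x u j s t w = u t (zz x u j s t w) := by simp [tl, hs]
    have e2 : tl x' u j s t v = u t (zz x' u j s t v) := by simp [tl, hs]
    have e3 : zz x' u j s (t + 1) v = x' (j t) (u t (zz x' u j s t v)) := by simp [zz, hs]
    have e4 : zz x u j s (t + 1) w = x (j t) (u t (zz x u j s t w)) := by simp [zz, hs]
    rw [e1] at hok
    rw [e2, e3, e4, e1, h, hok]
    exact ⟨rfl, rfl⟩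
  | false =>
    have e1 : tl x u j s t w = zz x u j s (t + 1) w := by simp [tl, hs]
    have e2 : tl x' u j s t v = zz x' u j s (t + 1) v := by simp [tl, hs]
    have e3 : zz x' u j s (t + 1) v = (x' (j t))⁻¹ (u t (zz x' u j s t v)) := by simp [zz, hs]
    have e4 : zz x u j s (t + 1) w = (x (j t))⁻¹ (u t (zz x u j s t w)) := by simp [zz, hs]
    have e5 : x (j t) (zz x u j s (t + 1) w) = u t (zz x u j s t w) := by
      rw [e4]; simp
    have e6 : zz x' u j s (t + 1) v = zz x u j s (t + 1) w := by
      rw [e3, h, Perm.inv_eq_iff_eq, ← e5, ← e1, hok]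
    rw [e1, e2]
    exact ⟨e6, e6⟩

/-- the exchange step -/
theorem stepx (x x' : Fin K → Perm (Fin n)) (u : ℕ → Perm (Fin n)) (j : ℕ → Fin K) (s : ℕ → Bool)
    (t : ℕ) (v w : Fin n) (h : zz x' u j s t v = zz x u j s t v)
    (hv : x' (j t) (tl x u j s t v) = x (j t) (tl x u j s t w))
    (hw : x' (j t) (tl x u j s t w) = x (j t) (tl x u j s t v)) :
    zz x' u j s (t + 1) v = zz x u j s (t + 1) w ∧
      tl x' u j s t v = if s t then tl x u j s t v else tl x u j s t w := by
  cases hs : s t with
  | true =>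
    have e1 : ∀ w, tl x u j s t w = u t (zz x u j s t w) := by intro w; simp [tl, hs]
    have e2 : tl x' u j s t v = u t (zz x' u j s t v) := by simp [tl, hs]
    have e3 : zz x' u j s (t + 1) v = x' (j t) (u t (zz x' u j s t v)) := by simp [zz, hs]
    have e4 : zz x u j s (t + 1) w = x (j t) (u t (zz x u j s t w)) := by simp [zz, hs]
    rw [e1, e1] at hv
    rw [e2, e3, e4, h, hv, e1]
    simp
  | false =>
    have e1 : ∀ w, tl x u j s t w = zz x u j s (t + 1) w := by intro w; simp [tl, hs]
    have e2 : tl x' u j s t v = zz x' u j s (t + 1) v := by simp [tl, hs]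
    have e3 : zz x' u j s (t + 1) v = (x' (j t))⁻¹ (u t (zz x' u j s t v)) := by simp [zz, hs]
    have e4 : ∀ w, zz x u j s (t + 1) w = (x (j t))⁻¹ (u t (zz x u j s t w)) := by
      intro w; simp [zz, hs]
    have e5 : x (j t) (zz x u j s (t + 1) v) = u t (zz x u j s t v) := by
      rw [e4]; simp
    have e6 : zz x' u j s (t + 1) v = zz x u j s (t + 1) w := by
      rw [e3, h, Perm.inv_eq_iff_eq, ← e5, ← e1, ← e1, hw]
    rw [e1, e1, e2]
    exact ⟨e6, by simpa using e6⟩

theorem thm : Pool.Agent.Helper6.AK.S_TRJ := by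
  intro n K r T c hc x u j s i t₀ ht₀ h1 γ δ hγ hδ x' hx'
  -- tails of the other passes
  have hne : ∀ (p : Fin r × Bool) (t : ℕ) (e : Bool), t < T → j t = j t₀ → (p, t) ≠ ((i, e), t₀) →
      tl x u j s t (c p) ≠ tl x u j s t₀ (c (i, e)) := by
    intro p t e ht hj hp heq
    exact h1 e ⟨p, t, ht, hp, hj, heq⟩
  have hγ0 : ∀ e, tl x u j s t₀ (c (i, e)) ≠ γ := fun e => hγ (i, e) t₀ ht₀ rfl
  have hδ0 : ∀ e, tl x u j s t₀ (c (i, e)) ≠ δ := fun e => hδ (i, e) t₀ ht₀ rfl
  have hok : ∀ (p : Fin r × Bool) (t : ℕ), t < T → (∀ e, (p, t) ≠ ((i, e), t₀)) →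
      x' (j t) (tl x u j s t (c p)) = x (j t) (tl x u j s t (c p)) := by
    intro p t ht hp
    by_cases hj : j t = j t₀
    · rw [hx', hj, Function.update_self, Perm.mul_apply, Perm.mul_apply,
        swap_apply_of_ne_of_ne (hγ p t ht hj) (hδ p t ht hj),
        swap_apply_of_ne_of_ne (hne p t false ht hj (hp _)) (hne p t true ht hj (hp _))]
    · rw [hx', Function.update_of_ne hj]
  have hex : ∀ e : Bool, x' (j t₀) (tl x u j s t₀ (c (i, e))) =
      x (j t₀) (tl x u j s t₀ (c (i, !e))) := by
    intro e
    rw [hx', Function.update_self, Perm.mul_apply, Perm.mul_apply,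
      swap_apply_of_ne_of_ne (hγ0 e) (hδ0 e)]
    cases e
    · rw [swap_apply_left]; rfl
    · rw [swap_apply_right]; rfl
  -- positions
  have hpos : ∀ t, t ≤ T → ∀ p : Fin r × Bool,
      zz x' u j s t (c p) = zz x u j s t (c (if p.1 = i ∧ t₀ < t then (p.1, !p.2) else p)) := by
    intro t
    induction t with
    | zero => intro _ p; simp [zz]
    | succ t ih =>
      intro ht p
      have ht' : t < T := ht
      have ih' := ih ht'.le
      by_cases hp : p.1 = i
      · obtain ⟨p1, e⟩ := p
        have hp' : p1 = i := hp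
        subst hp'
        rcases lt_trichotomy t t₀ with h | h | h
        · have a1 := ih' (p1, e)
          rw [if_neg (by rintro ⟨_, h'⟩; omega)] at a1
          rw [if_neg (by rintro ⟨_, h'⟩; omega)]
          refine (step x x' u j s t _ _ a1 (hok _ _ ht' ?_)).1
          intro e' he'
          rw [Prod.mk.injEq] at he'
          omega
        · subst h
          have a1 := ih' (p1, e)
          rw [if_neg (by rintro ⟨_, h'⟩; omega)] at a1
          rw [if_pos ⟨rfl, Nat.lt_succ_self _⟩]
          have a2 := hex e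
          have a3 := hex (!e)
          rw [Bool.not_not] at a3
          exact (stepx x x' u j s t _ _ a1 a2 a3).1
        · have a1 := ih' (p1, e)
          rw [if_pos ⟨rfl, h⟩] at a1
          rw [if_pos ⟨rfl, by omega⟩]
          refine (step x x' u j s t _ _ a1 (hok _ _ ht' ?_)).1
          intro e' he'
          rw [Prod.mk.injEq] at he'
          omega
      · have a1 := ih' p
        rw [if_neg (by rintro ⟨h', _⟩; exact hp h')] at a1
        rw [if_neg (by rintro ⟨h', _⟩; exact hp h')]
        refine (step x x' u j s t _ _ a1 (hok _ _ ht' ?_)).1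
        intro e' he'
        rw [Prod.mk.injEq] at he'
        exact hp (by rw [he'.1])
  refine ⟨?_, ?_, ?_, ?_⟩
  · intro p t ht
    have a := hpos t (by omega) p
    rwa [if_neg (by rintro ⟨_, h'⟩; omega)] at a
  · intro p t h0 ht hp
    have a := hpos t ht p
    rwa [if_neg (by rintro ⟨h', _⟩; exact hp h')] at a
  · intro e t h0 ht
    have a := hpos t ht (i, e)
    rwa [if_pos ⟨rfl, h0⟩] at a
  · intro p t ht
    have ih' := hpos t ht.le
    by_cases hp : p.1 = i
    · obtain ⟨p1, e⟩ := p
      have hp' : p1 = i := hp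
      subst hp'
      rcases lt_trichotomy t t₀ with h | h | h
      · have a1 := ih' (p1, e)
        rw [if_neg (by rintro ⟨_, h'⟩; omega)] at a1
        have hq : exq s p1 t₀ (p1, e) t = (p1, e) := by
          unfold exq
          rw [if_neg (by rintro ⟨_, h' | h'⟩ <;> omega)]
        rw [hq]
        refine (step x x' u j s t _ _ a1 (hok _ _ ht ?_)).2
        intro e' he'
        rw [Prod.mk.injEq] at he'
        omega
      · subst h
        have a1 := ih' (p1, e)
        rw [if_neg (by rintro ⟨_, h'⟩; omega)] at a1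
        have a2 := hex e
        have a3 := hex (!e)
        rw [Bool.not_not] at a3
        rw [(stepx x x' u j s t _ _ a1 a2 a3).2]
        cases hs : s t <;> simp [exq, hs]
      · have a1 := ih' (p1, e)
        rw [if_pos ⟨rfl, h⟩] at a1
        have hq : exq s p1 t₀ (p1, e) t = (p1, !e) := by
          unfold exq
          rw [if_pos ⟨rfl, Or.inl h⟩]
        rw [hq]
        refine (step x x' u j s t _ _ a1 (hok _ _ ht ?_)).2
        intro e' he'
        rw [Prod.mk.injEq] at he'
        omega
    · have a1 := ih' p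
      rw [if_neg (by rintro ⟨h', _⟩; exact hp h')] at a1
      have hq : exq s i t₀ p t = p := by
        unfold exq
        rw [if_neg (by rintro ⟨h', _⟩; exact hp h')]
      rw [hq]
      refine (step x x' u j s t _ _ a1 (hok _ _ ht ?_)).2
      intro e' he'
      rw [Prod.mk.injEq] at he'
      exact hp (by rw [he'.1])

end Pool.Agent.Helper7.AKTRJ
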